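import Mathlib
import Pool.Agent.W622.ETG.Stm

set_option autoImplicit false

/-!
Symbols extend in structures of elementary type.
-/

namespace Pool.Agent.W382.ELG

open Pool.Agent.W622.ETG Module Pool.Agent.H315R3.ETC

/-- symbols with respect to the canonical zero `q(1,1)` -/
def Sy (S : QData) (W : Subgroup S.G) (χ : S.G → S.G → ZMod 2) : Prop :=
  (∀ a ∈ W, ∀ b ∈ W, ∀ c, χ (a * b) c = χ a c + χ b c) ∧
  (∀ a ∈ W, ∀ b c, χ a (b * c) = χ a b + χ a c) ∧
  (∀ a ∈ W, ∀ b, S.q a b = S.q 1 1 → χ a b = 0)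

def MXc (S : QData) : Prop :=
  ∀ (W : Subgroup S.G) (χ : S.G → S.G → ZMod 2), Sy S W χ →
    ∃ χ' : S.G → S.G → ZMod 2, Sy S ⊤ χ' ∧ ∀ a ∈ W, ∀ b, χ' a b = χ a b

/-- the axioms with respect to the canonical zero -/
structure CQ (S : QData) : Prop where
  exp2 : ∀ a : S.G, a * a = 1
  symm : ∀ a b : S.G, S.q a b = S.q b a
  qs3 : ∀ a b c : S.G, S.q a b = S.q a c ↔ S.q a (b * c) = S.q 1 1
  diag : ∀ a : S.G, S.q a (S.neg * a) = S.q 1 1

theorem CQ.right {S : QData} (h : CQ S) (a : S.G) : S.q a 1 = S.q 1 1 := by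
  have := (h.qs3 a 1 1).1 rfl
  rwa [mul_one] at this

theorem CQ.left {S : QData} (h : CQ S) (a : S.G) : S.q 1 a = S.q 1 1 := by
  rw [h.symm, h.right]

theorem zero_eq {S : QData} (h : IsQuat S) : S.zero = S.q 1 1 := by
  have := (h.qs3 1 1 1).1 rfl
  rw [mul_one] at this
  exact this.symm

theorem cq_of_isQuat {S : QData} (h : IsQuat S) : CQ S := by
  have hz := zero_eq h
  refine ⟨h.exp2, h.qs2, ?_, ?_⟩
  · intro a b c
    rw [← hz]; exact h.qs3 a b c
  · intro a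
    rw [h.qs1 a, hz]

theorem zmod2 (x : ZMod 2) : x = 0 ∨ x = 1 := by
  revert x; decide

theorem add_self2 (x : ZMod 2) : x + x = 0 := by
  revert x; decide

theorem eq_of_add {x y : ZMod 2} (h : x + y = 0) : x = y := by
  revert x y; decide

theorem Sy.one_left {S : QData} {W : Subgroup S.G} {χ : S.G → S.G → ZMod 2} (h : Sy S W χ)
    (b : S.G) : χ 1 b = 0 := by
  have := h.1 1 W.one_mem 1 W.one_mem b
  rw [mul_one] at this
  rw [this]
  have h2 := this
  revert h2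
  generalize χ 1 b = x
  revert x; decide

theorem Sy.one_right {S : QData} {W : Subgroup S.G} {χ : S.G → S.G → ZMod 2} (h : Sy S W χ)
    {a : S.G} (ha : a ∈ W) : χ a 1 = 0 := by
  have := h.2.1 a ha 1 1
  rw [mul_one] at this
  revert this
  generalize χ a 1 = x
  revert x; decide

/-- homomorphisms extend from subgroups of groups of exponent two -/
theorem ext_hom {G : Type} [CommGroup G] (h2 : ∀ a : G, a * a = 1) (W : Subgroup G)
    (f : G → ZMod 2) (hf : ∀ a ∈ W, ∀ b ∈ W, f (a * b) = f a + f b) :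
    ∃ g : G → ZMod 2, (∀ a b, g (a * b) = g a + g b) ∧ ∀ a ∈ W, g a = f a := by
  let _ : Module (ZMod 2) (Additive G) := AddCommGroup.zmodModule (fun x => by
    show 2 • x = 0
    rw [two_nsmul]; exact h2 x.toMul)
  let W' : Submodule (ZMod 2) (Additive G) :=
    { carrier := {x | x.toMul ∈ W}
      add_mem' := fun {a b} ha hb => W.mul_mem ha hb
      zero_mem' := W.one_mem
      smul_mem' := fun c x hx => by
        rcases zmod2 c with rfl | rfl
        · rw [zero_smul]; exact W.one_mem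
        · rw [one_smul]; exact hx }
  obtain ⟨π, hπ⟩ := W'.subtype.exists_leftInverse_of_injective (by
    rw [LinearMap.ker_eq_bot]; exact W'.injective_subtype)
  have hπ' : ∀ x : W', π (x : Additive G) = x := fun x => by
    have := congrArg (fun l => l x) hπ
    simpa using this
  refine ⟨fun a => f ((π (Additive.ofMul a) : Additive G).toMul), ?_, ?_⟩
  · intro a b
    have : π (Additive.ofMul (a * b)) = π (Additive.ofMul a) + π (Additive.ofMul b) := by
      rw [ofMul_mul, map_add]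
    beta_reduce
    rw [this]
    exact hf _ (π (Additive.ofMul a)).2 _ (π (Additive.ofMul b)).2
  · intro a ha
    have := hπ' ⟨Additive.ofMul a, ha⟩
    show f ((π (Additive.ofMul a) : Additive G).toMul) = f a
    rw [this]; rfl

/-! ### local type -/

theorem loc_case {S : QData} (h : IsLocal S) : MXc S := by
  classical
  obtain ⟨hQ, hfin, h8, hnd, hcard⟩ := h
  have hc := cq_of_isQuat hQ
  have hz := zero_eq hQ
  -- two nonzero values agree
  have huniq : ∀ a b c d : S.G, S.q a b ≠ S.q 1 1 → S.q c d ≠ S.q 1 1 → S.q a b = S.q c d := by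
    intro a b c d h1 h2
    by_contra h3
    have hsub : ({S.q 1 1, S.q a b, S.q c d} : Set S.Q) ⊆ {t : S.Q | ∃ a b : S.G, S.q a b = t} := by
      rintro t (rfl | rfl | rfl)
      · exact ⟨1, 1, rfl⟩
      · exact ⟨a, b, rfl⟩
      · exact ⟨c, d, rfl⟩
    have hf : ({t : S.Q | ∃ a b : S.G, S.q a b = t}).Finite :=
      Set.finite_of_ncard_pos (by rw [hcard]; norm_num)
    have h4 := Set.ncard_le_ncard hsub hf
    have h5 : ({S.q 1 1, S.q a b, S.q c d} : Set S.Q).ncard = 3 :=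
      Set.ncard_eq_three.2 ⟨_, _, _, Ne.symm h1, Ne.symm h2, h3, rfl⟩
    omega
  let ω : S.G → S.G → ZMod 2 := fun a b => if S.q a b = S.q 1 1 then 0 else 1
  have hω0 : ∀ a b, ω a b = 0 ↔ S.q a b = S.q 1 1 := by
    intro a b
    simp only [ω]
    split_ifs with h <;> simp [h]
  have hω1 : ∀ a b, ω a b = 1 ↔ S.q a b ≠ S.q 1 1 := by
    intro a b
    simp only [ω]
    split_ifs with h <;> simp [h]
  have hright : ∀ a b c, ω a (b * c) = ω a b + ω a c := by
    intro a b c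
    rcases zmod2 (ω a b) with h1 | h1 <;> rcases zmod2 (ω a c) with h2 | h2
    · rw [h1, h2, add_zero, hω0, ← hc.qs3, (hω0 a b).1 h1, (hω0 a c).1 h2]
    · rw [h1, h2, zero_add, hω1, Ne, ← hc.qs3, (hω0 a b).1 h1]
      exact fun h => (hω1 a c).1 h2 h.symm
    · rw [h1, h2, add_zero, hω1, Ne, ← hc.qs3, (hω0 a c).1 h2]
      exact (hω1 a b).1 h1
    · rw [h1, h2, add_self2, hω0, ← hc.qs3]
      exact huniq _ _ _ _ ((hω1 a b).1 h1) ((hω1 a c).1 h2)
  have hsymm : ∀ a b, ω a b = ω b a := by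
    intro a b; simp only [ω]; rw [hc.symm]
  have hleft : ∀ a b c, ω (a * b) c = ω a c + ω b c := by
    intro a b c; rw [hsymm, hright, hsymm c a, hsymm c b]
  have hne : ∀ a, a ≠ 1 → ∃ b, ω a b = 1 := by
    intro a ha
    by_contra hcon
    push Not at hcon
    apply ha
    apply hnd
    intro b
    rw [hz]
    rcases zmod2 (ω a b) with h1 | h1
    · exact (hω0 a b).1 h1
    · exact absurd h1 (hcon b)
  have hωone : ∀ b, ω 1 b = 0 := fun b => (hω0 1 b).2 (hc.left b)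
  -- separation
  have hsep : ∀ a a', a ≠ 1 → a' ≠ 1 → a ≠ a' → ∃ b, ω a b = 1 ∧ ω a' b = 0 := by
    intro a a' ha ha' haa
    have h1 : a * a' ≠ 1 := by
      intro h
      apply haa
      calc a = a * (a' * a') := by rw [hc.exp2, mul_one]
        _ = (a * a') * a' := by rw [mul_assoc]
        _ = a' := by rw [h, one_mul]
    obtain ⟨b, hb⟩ := hne _ h1
    rw [hleft] at hb
    rcases zmod2 (ω a b) with h2 | h2 <;> rcases zmod2 (ω a' b) with h3 | h3
    · rw [h2, h3] at hb; exact absurd hb (by decide)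
    · -- (0,1)
      obtain ⟨b0, hb0⟩ := hne a ha
      rcases zmod2 (ω a' b0) with h4 | h4
      · exact ⟨b0, hb0, h4⟩
      · refine ⟨b0 * b, ?_, ?_⟩
        · rw [hright, hb0, h2, add_zero]
        · rw [hright, h4, h3, add_self2]
    · exact ⟨b, h2, h3⟩
    · rw [h2, h3] at hb; exact absurd hb (by decide)
  intro W χ hχ
  obtain ⟨ha1, ha2, ha3⟩ := hχ
  have hχ : Sy S W χ := ⟨ha1, ha2, ha3⟩
  have hprop : ∀ a ∈ W, ∀ b b', ω a b = 1 → ω a b' = 1 → χ a b = χ a b' := by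
    intro a ha b b' hb hb'
    apply eq_of_add
    rw [← ha2 a ha]
    apply ha3 a ha
    rw [← hω0, hright, hb, hb', add_self2]
  have hconst : ∀ a ∈ W, ∀ a' ∈ W, a ≠ 1 → a' ≠ 1 → ∀ b b', ω a b = 1 → ω a' b' = 1 →
      χ a b = χ a' b' := by
    intro a ha a' ha' h1 h1' b b' hb hb'
    by_cases haa : a = a'
    · subst haa; exact hprop a ha b b' hb hb'
    · obtain ⟨c, hc1, hc2⟩ := hsep a a' h1 h1' haa
      obtain ⟨d, hd1, hd2⟩ := hsep a' a h1' h1 (Ne.symm haa)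
      have e1 : χ (a * a') c = χ a c := by
        rw [ha1 a ha a' ha', ha3 a' ha' c ((hω0 _ _).1 hc2), add_zero]
      have e2 : χ (a * a') d = χ a' d := by
        rw [ha1 a ha a' ha', ha3 a ha d ((hω0 _ _).1 hd2), zero_add]
      have e3 : χ (a * a') c = χ (a * a') d := by
        apply hprop _ (W.mul_mem ha ha')
        · rw [hleft, hc1, hc2, add_zero]
        · rw [hleft, hd1, hd2, zero_add]
      rw [hprop a ha b c hb hc1, ← e1, e3, e2]
      exact hprop a' ha' d b' hd1 hb'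
  -- the constant
  obtain ⟨c, hcst⟩ : ∃ c : ZMod 2, ∀ a ∈ W, a ≠ 1 → ∀ b, ω a b = 1 → χ a b = c := by
    by_cases hW : ∃ a ∈ W, a ≠ 1
    · obtain ⟨a, ha, h1⟩ := hW
      obtain ⟨b, hb⟩ := hne a h1
      exact ⟨χ a b, fun a' ha' h1' b' hb' => hconst a' ha' a ha h1' h1 b' b hb' hb⟩
    · push Not at hW
      exact ⟨0, fun a ha h1 => absurd (hW a ha) h1⟩
  refine ⟨fun a b => c * ω a b, ⟨?_, ?_, ?_⟩, ?_⟩
  · intro a _ b _ d; beta_reduce; rw [hleft]; ring
  · intro a _ b d; beta_reduce; rw [hright]; ring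
  · intro a _ b hb; beta_reduce; rw [(hω0 a b).2 hb, mul_zero]
  · intro a ha b
    show c * ω a b = χ a b
    rcases zmod2 (ω a b) with h1 | h1
    · rw [h1, mul_zero, ha3 a ha b ((hω0 a b).1 h1)]
    · rw [h1, mul_one]
      by_cases ha1' : a = 1
      · subst ha1'; rw [hωone] at h1; exact absurd h1 (by decide)
      · exact (hcst a ha ha1' b h1).symm

/-! ### products -/

theorem cq_prod {S T : QData} (hS : CQ S) (hT : CQ T) : CQ (prod S T) := by
  refine ⟨?_, ?_, ?_, ?_⟩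
  · rintro ⟨a, b⟩
    exact Prod.ext (hS.exp2 a) (hT.exp2 b)
  · rintro ⟨a, b⟩ ⟨c, d⟩
    exact Prod.ext (hS.symm a c) (hT.symm b d)
  · rintro ⟨a, a'⟩ ⟨b, b'⟩ ⟨c, c'⟩
    show ((S.q a b, T.q a' b') : S.Q × T.Q) = (S.q a c, T.q a' c') ↔
      ((S.q a (b * c), T.q a' (b' * c')) : S.Q × T.Q) = (S.q 1 1, T.q 1 1)
    rw [Prod.mk.injEq, Prod.mk.injEq, hS.qs3, hT.qs3]
  · rintro ⟨a, b⟩
    exact Prod.ext (hS.diag a) (hT.diag b)

theorem prod_case {S T : QData} (hS : CQ S) (hT : CQ T) (mS : MXc S) (mT : MXc T) :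
    MXc (prod S T) := by
  classical
  intro W χ hχ
  obtain ⟨ha1, ha2, ha3⟩ := hχ
  change Subgroup (S.G × T.G) at W
  change S.G × T.G → S.G × T.G → ZMod 2 at χ
  have ha1 : ∀ a ∈ W, ∀ b ∈ W, ∀ c, χ (a * b) c = χ a c + χ b c := ha1
  have ha2 : ∀ a ∈ W, ∀ b c, χ a (b * c) = χ a b + χ a c := ha2
  have ha3 : ∀ a ∈ W, ∀ b : S.G × T.G, S.q a.1 b.1 = S.q 1 1 → T.q a.2 b.2 = T.q 1 1 →
      χ a b = 0 := fun a ha b h1 h2 => ha3 a ha b (Prod.ext h1 h2)
  -- first factor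
  let W1 : Subgroup S.G := W.map (MonoidHom.fst S.G T.G)
  let W2 : Subgroup T.G := W.map (MonoidHom.snd S.G T.G)
  let s1 : S.G → S.G × T.G := fun x => if h : ∃ w ∈ W, w.1 = x then h.choose else 1
  let s2 : T.G → S.G × T.G := fun x => if h : ∃ w ∈ W, w.2 = x then h.choose else 1
  have hs1 : ∀ x ∈ W1, s1 x ∈ W ∧ (s1 x).1 = x := by
    intro x hx
    obtain ⟨w, hw, hwx⟩ := hx
    have h : ∃ w ∈ W, w.1 = x := ⟨w, hw, hwx⟩
    simp only [s1, dif_pos h]
    exact h.choose_spec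
  have hs2 : ∀ x ∈ W2, s2 x ∈ W ∧ (s2 x).2 = x := by
    intro x hx
    obtain ⟨w, hw, hwx⟩ := hx
    have h : ∃ w ∈ W, w.2 = x := ⟨w, hw, hwx⟩
    simp only [s2, dif_pos h]
    exact h.choose_spec
  have hw1 : ∀ w ∈ W, ∀ w' ∈ W, w.1 = w'.1 → ∀ z, χ w (z, 1) = χ w' (z, 1) := by
    intro w hw w' hw' he z
    apply eq_of_add
    rw [← ha1 w hw w' hw']
    apply ha3 _ (W.mul_mem hw hw')
    · show S.q (w.1 * w'.1) z = _
      rw [he, hS.exp2, hS.left]
    · exact hT.right _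
  have hw2 : ∀ w ∈ W, ∀ w' ∈ W, w.2 = w'.2 → ∀ z, χ w (1, z) = χ w' (1, z) := by
    intro w hw w' hw' he z
    apply eq_of_add
    rw [← ha1 w hw w' hw']
    apply ha3 _ (W.mul_mem hw hw')
    · exact hS.right _
    · show T.q (w.2 * w'.2) z = _
      rw [he, hT.exp2, hT.left]
  have hsy1 : Sy S W1 (fun x z => χ (s1 x) (z, 1)) := by
    refine ⟨?_, ?_, ?_⟩
    · intro a ha b hb c
      have e : χ (s1 (a * b)) (c, 1) = χ (s1 a * s1 b) (c, 1) := by
        apply hw1 _ (hs1 _ (W1.mul_mem ha hb)).1 _ (W.mul_mem (hs1 a ha).1 (hs1 b hb).1)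
        rw [(hs1 _ (W1.mul_mem ha hb)).2, Prod.fst_mul, (hs1 a ha).2, (hs1 b hb).2]
      show χ (s1 (a * b)) (c, 1) = χ (s1 a) (c, 1) + χ (s1 b) (c, 1)
      rw [e, ha1 _ (hs1 a ha).1 _ (hs1 b hb).1]
    · intro a ha b c
      show χ (s1 a) (b * c, 1) = χ (s1 a) (b, 1) + χ (s1 a) (c, 1)
      rw [← ha2 _ (hs1 a ha).1]
      congr 1
      exact Prod.ext rfl (mul_one _).symm
    · intro a ha b hb
      apply ha3 _ (hs1 a ha).1
      · show S.q (s1 a).1 b = _
        rw [(hs1 a ha).2, hb]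
      · exact hT.right _
  have hsy2 : Sy T W2 (fun x z => χ (s2 x) (1, z)) := by
    refine ⟨?_, ?_, ?_⟩
    · intro a ha b hb c
      have e : χ (s2 (a * b)) (1, c) = χ (s2 a * s2 b) (1, c) := by
        apply hw2 _ (hs2 _ (W2.mul_mem ha hb)).1 _ (W.mul_mem (hs2 a ha).1 (hs2 b hb).1)
        rw [(hs2 _ (W2.mul_mem ha hb)).2, Prod.snd_mul, (hs2 a ha).2, (hs2 b hb).2]
      show χ (s2 (a * b)) (1, c) = χ (s2 a) (1, c) + χ (s2 b) (1, c)
      rw [e, ha1 _ (hs2 a ha).1 _ (hs2 b hb).1]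
    · intro a ha b c
      show χ (s2 a) (1, b * c) = χ (s2 a) (1, b) + χ (s2 a) (1, c)
      rw [← ha2 _ (hs2 a ha).1]
      congr 1
      exact Prod.ext (mul_one _).symm rfl
    · intro a ha b hb
      apply ha3 _ (hs2 a ha).1
      · exact hS.right _
      · show T.q (s2 a).2 b = _
        rw [(hs2 a ha).2, hb]
  obtain ⟨χ1, ⟨b1, b2, b3⟩, b4⟩ := mS W1 _ hsy1
  obtain ⟨χ2, ⟨c1, c2, c3⟩, c4⟩ := mT W2 _ hsy2
  refine ⟨fun a b => χ1 a.1 b.1 + χ2 a.2 b.2, ⟨?_, ?_, ?_⟩, ?_⟩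
  · intro a _ b _ c
    show χ1 (a.1 * b.1) c.1 + χ2 (a.2 * b.2) c.2 = _
    rw [b1 _ trivial _ trivial, c1 _ trivial _ trivial]; ring
  · intro a _ b c
    show χ1 a.1 (b.1 * c.1) + χ2 a.2 (b.2 * c.2) = _
    rw [b2 _ trivial, c2 _ trivial]; ring
  · intro a _ b hb
    have hb1 : S.q a.1 b.1 = S.q 1 1 := congrArg Prod.fst hb
    have hb2 : T.q a.2 b.2 = T.q 1 1 := congrArg Prod.snd hb
    show χ1 a.1 b.1 + χ2 a.2 b.2 = 0
    rw [b3 _ trivial _ hb1, c3 _ trivial _ hb2, add_zero]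
  · intro a ha b
    have m1 : a.1 ∈ W1 := ⟨a, ha, rfl⟩
    have m2 : a.2 ∈ W2 := ⟨a, ha, rfl⟩
    show χ1 a.1 b.1 + χ2 a.2 b.2 = χ a b
    rw [b4 _ m1, c4 _ m2]
    show χ (s1 a.1) (b.1, 1) + χ (s2 a.2) (1, b.2) = χ a b
    rw [hw1 _ (hs1 _ m1).1 a ha (hs1 _ m1).2, hw2 _ (hs2 _ m2).1 a ha (hs2 _ m2).2, ← ha2 a ha]
    congr 1
    exact Prod.ext (mul_one _) (one_mul _)

/-! ### extensions -/

theorem c2_cases (α : C2) : α = 1 ∨ α = gen := by
  revert α; decide

theorem gen_ne : gen ≠ (1 : C2) := by decide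

theorem gen_mul : gen * gen = (1 : C2) := by decide

theorem pw_one {G : Type} [CommGroup G] (a : G) : pw a 1 = 1 := by simp [pw]

theorem pw_gen {G : Type} [CommGroup G] (a : G) : pw a gen = a := by simp [pw, gen_ne]

theorem one_pw {G : Type} [CommGroup G] (β : C2) : pw (1 : G) β = 1 := by
  rcases c2_cases β with rfl | rfl
  · exact pw_one 1
  · exact pw_gen 1

theorem pw_mul {G : Type} [CommGroup G] (a b : G) (β : C2) : pw (a * b) β = pw a β * pw b β := by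
  rcases c2_cases β with rfl | rfl
  · simp [pw_one]
  · simp [pw_gen]

theorem pw_mul' {G : Type} [CommGroup G] (h2 : ∀ a : G, a * a = 1) (a : G) (β γ : C2) :
    pw a (β * γ) = pw a β * pw a γ := by
  rcases c2_cases β with rfl | rfl <;> rcases c2_cases γ with rfl | rfl
  · simp [pw_one]
  · simp [pw_one, pw_gen]
  · simp [pw_one, pw_gen]
  · rw [gen_mul, pw_one, pw_gen, h2]

theorem pw_comm {G : Type} [CommGroup G] (a : G) (β γ : C2) :
    pw (pw a β) γ = pw (pw a γ) β := by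
  rcases c2_cases β with rfl | rfl <;> rcases c2_cases γ with rfl | rfl
  · rfl
  · simp only [pw_one, pw_gen]
  · simp only [pw_one, pw_gen]
  · rfl

theorem ext_q {S : QData} (u v : S.G × C2) :
    (ext S).q u v = (S.q u.1 v.1, pw (pw S.neg u.2) v.2 * pw u.1 v.2 * pw v.1 u.2) := rfl

theorem ext_q1 {S : QData} :
    (ext S).q (1 : S.G × C2) (1 : S.G × C2) = (S.q 1 1, (1 : S.G)) := by
  rw [ext_q]
  show (S.q 1 1, pw (pw S.neg (1 : C2)) (1 : C2) * pw 1 (1 : C2) * pw 1 (1 : C2)) = _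
  simp only [pw_one, mul_one]

theorem ext_key {S : QData} (u v : S.G × C2) :
    (ext S).q u v = (ext S).q (1 : S.G × C2) (1 : S.G × C2) ↔
      S.q u.1 v.1 = S.q 1 1 ∧ pw (pw S.neg u.2) v.2 * pw u.1 v.2 * pw v.1 u.2 = 1 := by
  rw [ext_q, ext_q1]
  exact Prod.mk.injEq _ _ _ _ ▸ Iff.rfl

theorem cq_ext {S : QData} (hS : CQ S) : CQ (ext S) := by
  have key := @ext_key S
  have h2 : ∀ x y : S.G, x * y = 1 ↔ x = y := by
    intro x y
    constructor
    · intro h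
      calc x = x * (y * y) := by rw [hS.exp2, mul_one]
        _ = (x * y) * y := by rw [mul_assoc]
        _ = y := by rw [h, one_mul]
    · rintro rfl; exact hS.exp2 x
  refine ⟨?_, ?_, ?_, ?_⟩
  · rintro ⟨a, b⟩
    refine Prod.ext (hS.exp2 a) ?_
    show b * b = 1
    rcases c2_cases b with rfl | rfl
    · exact mul_one 1
    · exact gen_mul
  · intro u v
    change S.G × C2 at u v
    show (ext S).q u v = (ext S).q v u
    rw [ext_q u v, ext_q v u, hS.symm, pw_comm, mul_assoc, mul_assoc, mul_comm (pw u.1 v.2)]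
  · intro a b c
    change S.G × C2 at a b c
    refine Iff.trans ?_ (key a (b * c)).symm
    rw [ext_q a b, ext_q a c]
    have e : ((S.q a.1 b.1, pw (pw S.neg a.2) b.2 * pw a.1 b.2 * pw b.1 a.2) : S.Q × S.G) =
        (S.q a.1 c.1, pw (pw S.neg a.2) c.2 * pw a.1 c.2 * pw c.1 a.2) ↔
        S.q a.1 b.1 = S.q a.1 c.1 ∧ pw (pw S.neg a.2) b.2 * pw a.1 b.2 * pw b.1 a.2 =
          pw (pw S.neg a.2) c.2 * pw a.1 c.2 * pw c.1 a.2 := by
      rw [Prod.mk.injEq]
    refine Iff.trans e ?_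
    have e1 : (b * c).1 = b.1 * c.1 := rfl
    have e2 : (b * c).2 = b.2 * c.2 := rfl
    rw [e1, e2, hS.qs3, pw_mul, pw_mul' hS.exp2, pw_mul' hS.exp2]
    refine and_congr Iff.rfl ?_
    rw [← h2]
    have e3 : pw (pw S.neg a.2) b.2 * pw a.1 b.2 * pw b.1 a.2 *
          (pw (pw S.neg a.2) c.2 * pw a.1 c.2 * pw c.1 a.2) =
        pw (pw S.neg a.2) b.2 * pw (pw S.neg a.2) c.2 * (pw a.1 b.2 * pw a.1 c.2) *
          (pw b.1 a.2 * pw c.1 a.2) := by
      rw [mul_mul_mul_comm, mul_mul_mul_comm (pw (pw S.neg a.2) b.2)]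
    rw [e3]
  · intro a
    change S.G × C2 at a
    refine (key a ((S.neg, (1 : C2)) * a)).2 ⟨hS.diag _, ?_⟩
    show pw (pw S.neg a.2) (1 * a.2) * pw a.1 (1 * a.2) * pw (S.neg * a.1) a.2 = 1
    rw [one_mul]
    rcases c2_cases a.2 with h | h
    · rw [h]; simp only [pw_one, mul_one]
    · rw [h, pw_gen, pw_gen, pw_gen, pw_gen, hS.exp2]

theorem bar_pw {G : Type} [CommGroup G] {g : G → ZMod 2} (hg : ∀ a b, g (a * b) = g a + g b)
    (a : G) (β : C2) : g (pw a β) = β.toAdd * g a := by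
  have h1 : g 1 = 0 := by
    have := hg 1 1
    rw [mul_one] at this
    revert this
    generalize g 1 = x
    revert x; decide
  rcases c2_cases β with rfl | rfl
  · rw [pw_one, h1]
    show (0 : ZMod 2) = 0 * g a
    rw [zero_mul]
  · rw [pw_gen]
    show g a = 1 * g a
    rw [one_mul]

theorem ext_case {S : QData} (hS : CQ S) (mS : MXc S) : MXc (ext S) := by
  classical
  have key := @ext_key S
  have hE := cq_ext hS
  intro W χ hχ
  obtain ⟨ha1, ha2, ha3⟩ := hχ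
  change Subgroup (S.G × C2) at W
  change S.G × C2 → S.G × C2 → ZMod 2 at χ
  have ha1 : ∀ a ∈ W, ∀ b ∈ W, ∀ c, χ (a * b) c = χ a c + χ b c := ha1
  have ha2 : ∀ a ∈ W, ∀ b c, χ a (b * c) = χ a b + χ a c := ha2
  have ha3 : ∀ a ∈ W, ∀ b : S.G × C2, S.q a.1 b.1 = S.q 1 1 →
      pw (pw S.neg a.2) b.2 * pw a.1 b.2 * pw b.1 a.2 = 1 →
      χ a b = 0 := fun a ha b h1 h2 => ha3 a ha b ((key a b).2 ⟨h1, h2⟩)
  let N : S.G × C2 := (S.neg, 1)
  have hNd : ∀ a : S.G × C2, S.q a.1 (N * a).1 = S.q 1 1 ∧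
      pw (pw S.neg a.2) (N * a).2 * pw a.1 (N * a).2 * pw (N * a).1 a.2 = 1 :=
    fun a => (key a (N * a)).1 (hE.diag a)
  let W0 : Subgroup S.G := W.comap (MonoidHom.inl S.G C2)
  have mW0 : ∀ a, a ∈ W0 ↔ (a, (1 : C2)) ∈ W := fun a => Iff.rfl
  have hsy : Sy S W0 (fun a z => χ (a, 1) (z, 1)) := by
    refine ⟨?_, ?_, ?_⟩
    · intro a ha b hb c
      show χ (a * b, 1) (c, 1) = χ (a, 1) (c, 1) + χ (b, 1) (c, 1)
      rw [← ha1 (a, 1) ha (b, 1) hb]
      congr 1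
    · intro a ha b c
      show χ (a, 1) (b * c, 1) = χ (a, 1) (b, 1) + χ (a, 1) (c, 1)
      rw [← ha2 (a, 1) ha]
      congr 1
    · intro a ha b hb
      apply ha3 _ ha
      · exact hb
      · show pw (pw S.neg 1) 1 * pw a 1 * pw b 1 = 1
        rw [pw_one, pw_one, pw_one, mul_one, mul_one]
  obtain ⟨χ0, ⟨b1, b2, b3⟩, b4⟩ := mS W0 _ hsy
  obtain ⟨g, hg1, hg2⟩ := ext_hom hS.exp2 W0 (fun a => χ (a, 1) (1, gen)) (by
    intro a ha b hb
    show χ (a * b, 1) (1, gen) = χ (a, 1) (1, gen) + χ (b, 1) (1, gen)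
    rw [← ha1 (a, 1) ha (b, 1) hb]
    congr 1)
  -- the first extension
  let χ1 : S.G × C2 → S.G × C2 → ZMod 2 := fun u v =>
    χ0 u.1 v.1 + (v.2.toAdd * (u.2.toAdd * g S.neg) + v.2.toAdd * g u.1 + u.2.toAdd * g v.1)
  have d1 : ∀ a b c, χ1 (a * b) c = χ1 a c + χ1 b c := by
    intro a b c
    show χ0 (a.1 * b.1) c.1 + (c.2.toAdd * ((a.2.toAdd + b.2.toAdd) * g S.neg) +
        c.2.toAdd * g (a.1 * b.1) + (a.2.toAdd + b.2.toAdd) * g c.1) =
      χ0 a.1 c.1 + (c.2.toAdd * (a.2.toAdd * g S.neg) + c.2.toAdd * g a.1 + a.2.toAdd * g c.1) +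
        (χ0 b.1 c.1 + (c.2.toAdd * (b.2.toAdd * g S.neg) + c.2.toAdd * g b.1 +
          b.2.toAdd * g c.1))
    rw [b1 _ trivial _ trivial, hg1]; ring
  have d2 : ∀ a b c, χ1 a (b * c) = χ1 a b + χ1 a c := by
    intro a b c
    show χ0 a.1 (b.1 * c.1) + ((b.2.toAdd + c.2.toAdd) * (a.2.toAdd * g S.neg) +
        (b.2.toAdd + c.2.toAdd) * g a.1 + a.2.toAdd * g (b.1 * c.1)) =
      χ0 a.1 b.1 + (b.2.toAdd * (a.2.toAdd * g S.neg) + b.2.toAdd * g a.1 + a.2.toAdd * g b.1) +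
        (χ0 a.1 c.1 + (c.2.toAdd * (a.2.toAdd * g S.neg) + c.2.toAdd * g a.1 +
          a.2.toAdd * g c.1))
    rw [b2 _ trivial, hg1]; ring
  have d3 : ∀ a b : S.G × C2, S.q a.1 b.1 = S.q 1 1 →
      pw (pw S.neg a.2) b.2 * pw a.1 b.2 * pw b.1 a.2 = 1 → χ1 a b = 0 := by
    intro a b h1 h2
    show χ0 a.1 b.1 + (b.2.toAdd * (a.2.toAdd * g S.neg) + b.2.toAdd * g a.1 +
      a.2.toAdd * g b.1) = 0
    rw [b3 _ trivial _ h1, zero_add, ← bar_pw hg1, ← bar_pw hg1, ← bar_pw hg1, ← bar_pw hg1,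
      ← hg1, ← hg1, h2]
    have := hg1 1 1
    rw [mul_one] at this
    revert this
    generalize g 1 = x
    revert x; decide
  have d4 : ∀ a ∈ W0, ∀ v, χ1 (a, 1) v = χ (a, 1) v := by
    intro a ha v
    obtain ⟨z, ξ⟩ := v
    show χ0 a z + (ξ.toAdd * ((0 : ZMod 2) * g S.neg) + ξ.toAdd * g a + (0 : ZMod 2) * g z) =
      χ (a, 1) (z, ξ)
    rw [b4 a ha, hg2 a ha, zero_mul, zero_mul, mul_zero, zero_add, add_zero]
    show χ (a, 1) (z, 1) + ξ.toAdd * χ (a, 1) (1, gen) = χ (a, 1) (z, ξ)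
    rcases c2_cases ξ with rfl | rfl
    · show χ (a, 1) (z, 1) + 0 * χ (a, 1) (1, gen) = χ (a, 1) (z, 1)
      rw [zero_mul, add_zero]
    · show χ (a, 1) (z, 1) + 1 * χ (a, 1) (1, gen) = χ (a, 1) (z, gen)
      rw [one_mul, ← ha2 (a, 1) ha]
      congr 1
      exact Prod.ext (mul_one _) (one_mul _)
  by_cases hW : ∃ w ∈ W, w.2 = gen
  · obtain ⟨w0, hw0, hw0g⟩ := hW
    let ψ : S.G × C2 → S.G × C2 → ZMod 2 := fun u v => χ u v + χ1 u v
    have p1 : ∀ a ∈ W, ∀ b ∈ W, ∀ c, ψ (a * b) c = ψ a c + ψ b c := by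
      intro a ha b hb c
      show χ (a * b) c + χ1 (a * b) c = χ a c + χ1 a c + (χ b c + χ1 b c)
      rw [ha1 a ha b hb, d1]; ring
    have p2 : ∀ a ∈ W, ∀ b c, ψ a (b * c) = ψ a b + ψ a c := by
      intro a ha b c
      show χ a (b * c) + χ1 a (b * c) = χ a b + χ1 a b + (χ a c + χ1 a c)
      rw [ha2 a ha, d2]; ring
    have p3 : ∀ a ∈ W, ψ a (N * a) = 0 := by
      intro a ha
      show χ a (N * a) + χ1 a (N * a) = 0
      rw [ha3 a ha (N * a) (hNd a).1 (hNd a).2, d3 a (N * a) (hNd a).1 (hNd a).2, add_zero]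
    have p4 : ∀ w ∈ W, w.2 = 1 → ∀ v, ψ w v = 0 := by
      intro w hw hw1 v
      obtain ⟨a, α⟩ := w
      change α = 1 at hw1
      subst hw1
      show χ (a, 1) v + χ1 (a, 1) v = 0
      rw [d4 a hw, add_self2]
    have p5 : ∀ w ∈ W, ∀ v, ψ w v = w.2.toAdd * ψ w0 v := by
      intro w hw v
      rcases c2_cases w.2 with h | h
      · rw [p4 w hw h, h]
        show (0 : ZMod 2) = 0 * _
        rw [zero_mul]
      · have e : ψ (w * w0) v = 0 := by
          apply p4 _ (W.mul_mem hw hw0)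
          show w.2 * w0.2 = 1
          rw [h, hw0g, gen_mul]
        rw [p1 w hw w0 hw0] at e
        rw [eq_of_add e, h]
        show ψ w0 v = 1 * _
        rw [one_mul]
    have p6 : ∀ w ∈ W, ψ w0 w = w.2.toAdd * ψ w0 N := by
      intro w hw
      rcases c2_cases w.2 with h | h
      · have e2 := p3 _ (W.mul_mem hw0 hw)
        rw [p5 _ (W.mul_mem hw0 hw), ← mul_assoc, p2 _ hw0, p3 _ hw0, zero_add] at e2
        have e3 : (w0 * w).2 = gen := by
          show w0.2 * w.2 = gen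
          rw [h, hw0g, mul_one]
        rw [e3] at e2
        have e4 : (1 : ZMod 2) * ψ w0 w = 0 := e2
        rw [one_mul] at e4
        rw [h, e4]
        show (0 : ZMod 2) = 0 * _
        rw [zero_mul]
      · have e1 := p3 w hw
        rw [p5 w hw, h, p2 _ hw0] at e1
        have e4 : (1 : ZMod 2) * (ψ w0 N + ψ w0 w) = 0 := e1
        rw [one_mul] at e4
        rw [h, ← eq_of_add e4]
        show _ = 1 * _
        rw [one_mul]
    have p7 : ψ w0 1 = 0 := by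
      rw [p6 1 W.one_mem]
      show (0 : ZMod 2) * _ = 0
      rw [zero_mul]
    have p8 : ∀ (v : S.G × C2) (β : C2), ψ w0 (pw v β) = β.toAdd * ψ w0 v := by
      intro v β
      exact bar_pw (g := ψ w0) (p2 w0 hw0) v β
    refine ⟨fun u v => χ1 u v + (v.2.toAdd * (u.2.toAdd * ψ w0 N) + v.2.toAdd * ψ w0 u +
      u.2.toAdd * ψ w0 v), ⟨?_, ?_, ?_⟩, ?_⟩
    · intro a _ b _ c
      change S.G × C2 at a b c
      show χ1 (a * b) c + (c.2.toAdd * ((a.2.toAdd + b.2.toAdd) * ψ w0 N) +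
        c.2.toAdd * ψ w0 (a * b) + (a.2.toAdd + b.2.toAdd) * ψ w0 c) = _
      rw [d1, p2 w0 hw0]; ring
    · intro a _ b c
      change S.G × C2 at a b c
      show χ1 a (b * c) + ((b.2.toAdd + c.2.toAdd) * (a.2.toAdd * ψ w0 N) +
        (b.2.toAdd + c.2.toAdd) * ψ w0 a + a.2.toAdd * ψ w0 (b * c)) = _
      rw [d2, p2 w0 hw0]; ring
    · intro u _ v huv
      change S.G × C2 at u v
      obtain ⟨h1, h2⟩ := (key u v).1 huv
      show χ1 u v + (v.2.toAdd * (u.2.toAdd * ψ w0 N) + v.2.toAdd * ψ w0 u +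
        u.2.toAdd * ψ w0 v) = 0
      rw [d3 u v h1 h2, zero_add, ← p8, ← p8, ← p8, ← p8, ← p2 w0 hw0, ← p2 w0 hw0]
      have e : pw (pw N u.2) v.2 * pw u v.2 * pw v u.2 = 1 := by
        refine Prod.ext ?_ ?_
        · have e1 : ∀ (x : S.G × C2) (β : C2), (pw x β).1 = pw x.1 β := by
            intro x β
            rcases c2_cases β with rfl | rfl
            · rw [pw_one, pw_one]; rfl
            · rw [pw_gen, pw_gen]
          show (pw (pw N u.2) v.2).1 * (pw u v.2).1 * (pw v u.2).1 = 1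
          rw [e1, e1, e1, e1, h2]
        · show (pw (pw N u.2) v.2).2 * (pw u v.2).2 * (pw v u.2).2 = 1
          have e2 : ∀ (x : S.G × C2) (β : C2), (pw x β).2 = pw x.2 β := by
            intro x β
            rcases c2_cases β with rfl | rfl
            · rw [pw_one, pw_one]; rfl
            · rw [pw_gen, pw_gen]
          rw [e2, e2, e2, e2]
          show pw (pw (1 : C2) u.2) v.2 * pw u.2 v.2 * pw v.2 u.2 = 1
          rw [one_pw, one_pw, one_mul]
          rcases c2_cases u.2 with hu | hu <;> rcases c2_cases v.2 with hv | hv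
          · rw [hu, hv, pw_one, mul_one]
          · rw [hu, hv, pw_one, pw_gen, mul_one]
          · rw [hu, hv, pw_one, pw_gen, mul_one]
          · rw [hu, hv, pw_gen, gen_mul]
      rw [e, p7]
    · intro w hw v
      change S.G × C2 at w v
      show χ1 w v + (v.2.toAdd * (w.2.toAdd * ψ w0 N) + v.2.toAdd * ψ w0 w +
        w.2.toAdd * ψ w0 v) = χ w v
      rw [p6 w hw, add_self2, zero_add, ← p5 w hw]
      show χ1 w v + (χ w v + χ1 w v) = χ w v
      have := add_self2 (χ1 w v)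
      calc χ1 w v + (χ w v + χ1 w v) = χ w v + (χ1 w v + χ1 w v) := by ring
        _ = χ w v := by rw [this, add_zero]
  · push Not at hW
    refine ⟨χ1, ⟨fun a _ b _ c => d1 a b c, fun a _ b c => d2 a b c, ?_⟩, ?_⟩
    · intro u _ v huv
      obtain ⟨h1, h2⟩ := (key u v).1 huv
      exact d3 u v h1 h2
    · intro w hw v
      change S.G × C2 at w v
      obtain ⟨a, α⟩ := w
      have hα : α = 1 := by
        rcases c2_cases α with h | h
        · exact h
        · exact absurd h (hW _ hw)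
      subst hα
      exact d4 a hw v

/-! ### isomorphisms -/

theorem cq_iso {S T : QData} (hS : CQ S) (h : Iso S T) : CQ T := by
  obtain ⟨φ, hφ, hq⟩ := h
  have sur : ∀ x : T.G, ∃ a, φ a = x := φ.surjective
  have hone : φ 1 = 1 := map_one φ
  refine ⟨?_, ?_, ?_, ?_⟩
  · intro a
    obtain ⟨a, rfl⟩ := sur a
    rw [← map_mul, hS.exp2, hone]
  · intro a b
    obtain ⟨a, rfl⟩ := sur a
    obtain ⟨b, rfl⟩ := sur b
    exact (hq a b b a).1 (hS.symm a b)
  · intro a b c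
    obtain ⟨a, rfl⟩ := sur a
    obtain ⟨b, rfl⟩ := sur b
    obtain ⟨c, rfl⟩ := sur c
    rw [← hq, hS.qs3, hq, map_mul, hone]
  · intro a
    obtain ⟨a, rfl⟩ := sur a
    rw [← hone, ← hφ, ← map_mul, ← hq]
    exact hS.diag a

theorem mx_iso {S T : QData} (m : MXc S) (h : Iso S T) : MXc T := by
  obtain ⟨φ, hφ, hq⟩ := h
  have sur : ∀ x : T.G, ∃ a, φ a = x := φ.surjective
  have hone : φ 1 = 1 := map_one φ
  intro W χ hχ
  obtain ⟨h1, h2, h3⟩ := hχ
  obtain ⟨χ', ⟨k1, k2, k3⟩, k4⟩ := m (W.comap φ.toMonoidHom) (fun a b => χ (φ a) (φ b)) (by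
    refine ⟨?_, ?_, ?_⟩
    · intro a ha b hb c
      show χ (φ (a * b)) (φ c) = _
      rw [map_mul]; exact h1 _ ha _ hb _
    · intro a ha b c
      show χ (φ a) (φ (b * c)) = _
      rw [map_mul]; exact h2 _ ha _ _
    · intro a ha b hb
      apply h3 _ ha
      have := (hq a b 1 1).1 hb
      rwa [hone] at this)
  refine ⟨fun a b => χ' (φ.symm a) (φ.symm b), ⟨?_, ?_, ?_⟩, ?_⟩
  · intro a _ b _ c
    show χ' (φ.symm (a * b)) (φ.symm c) = _
    rw [map_mul]; exact k1 _ trivial _ trivial _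
  · intro a _ b c
    show χ' (φ.symm a) (φ.symm (b * c)) = _
    rw [map_mul]; exact k2 _ trivial _ _
  · intro a _ b hb
    apply k3 _ trivial
    rw [hq, φ.apply_symm_apply, φ.apply_symm_apply, hone]
    exact hb
  · intro a ha b
    show χ' (φ.symm a) (φ.symm b) = χ a b
    rw [k4]
    · show χ (φ (φ.symm a)) (φ (φ.symm b)) = χ a b
      rw [φ.apply_symm_apply, φ.apply_symm_apply]
    · show φ (φ.symm a) ∈ W
      rw [φ.apply_symm_apply]; exact ha

theorem zero_case {S : QData} (h : ∀ a b : S.G, S.q a b = S.q 1 1) : MXc S := by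
  intro W χ hχ
  exact ⟨fun _ _ => 0, ⟨fun _ _ _ _ _ => (add_zero _).symm, fun _ _ _ _ => (add_zero _).symm,
    fun _ _ _ _ => rfl⟩, fun a ha b => (hχ.2.2 a ha b (h a b)).symm⟩

theorem l1_case : MXc L1 := by
  intro W χ hχ
  change Subgroup C2 at W
  by_cases hg : gen ∈ W
  · have hW : W = ⊤ := by
      rw [eq_top_iff]
      intro a _
      rcases c2_cases a with h | h
      · rw [h]; exact W.one_mem
      · rw [h]; exact hg
    subst hW
    exact ⟨χ, hχ, fun _ _ _ => rfl⟩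
  · refine ⟨fun _ _ => 0, ⟨fun _ _ _ _ _ => (add_zero _).symm,
      fun _ _ _ _ => (add_zero _).symm, fun _ _ _ _ => rfl⟩, fun a ha b => ?_⟩
    have h1 : a = (1 : C2) := by
      rcases c2_cases a with h | h
      · exact h
      · exact absurd (h ▸ ha) hg
    rw [h1]
    exact (Sy.one_left (S := L1) hχ b).symm

theorem cq_l1 : CQ L1 := by
  refine ⟨?_, ?_, ?_, ?_⟩
  · intro a
    change a * a = (1 : C2)
    rcases c2_cases a with rfl | rfl
    · exact mul_one 1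
    · exact gen_mul
  · show ∀ a b : C2, decide (a = gen ∧ b = gen) = decide (b = gen ∧ a = gen)
    decide
  · show ∀ a b c : C2, decide (a = gen ∧ b = gen) = decide (a = gen ∧ c = gen) ↔
      decide (a = gen ∧ b * c = gen) = decide ((1 : C2) = gen ∧ (1 : C2) = gen)
    decide
  · show ∀ a : C2, decide (a = gen ∧ gen * a = gen) = decide ((1 : C2) = gen ∧ (1 : C2) = gen)
    decide

theorem elem_main (S : QData) (h : Elem S) : CQ S ∧ MXc S := by
  induction h with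
  | l0 =>
    exact ⟨⟨fun _ => rfl, fun _ _ => rfl, fun _ _ _ => Iff.rfl, fun _ => rfl⟩,
      zero_case fun _ _ => rfl⟩
  | l10 =>
    refine ⟨⟨?_, fun _ _ => rfl, fun _ _ _ => iff_of_true rfl rfl, fun _ => rfl⟩,
      zero_case fun _ _ => rfl⟩
    intro a
    change a * a = (1 : C2)
    rcases c2_cases a with rfl | rfl
    · exact mul_one 1
    · exact gen_mul
  | l11 =>
    refine ⟨⟨?_, fun _ _ => rfl, fun _ _ _ => iff_of_true rfl rfl, fun _ => rfl⟩,
      zero_case fun _ _ => rfl⟩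
    intro a
    change a * a = (1 : C2)
    rcases c2_cases a with rfl | rfl
    · exact mul_one 1
    · exact gen_mul
  | l1 => exact ⟨cq_l1, l1_case⟩
  | loc S hS => exact ⟨cq_of_isQuat hS.1, loc_case hS⟩
  | prod S T _ _ ihS ihT => exact ⟨cq_prod ihS.1 ihT.1, prod_case ihS.1 ihT.1 ihS.2 ihT.2⟩
  | ext S _ ih => exact ⟨cq_ext ih.1, ext_case ih.1 ih.2⟩
  | iso S T _ hST ih => exact ⟨cq_iso ih.1 hST, mx_iso ih.2 hST⟩

theorem mx_of_mxc {S : QData} (hz : S.zero = S.q 1 1) (m : MXc S) : MX S := by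
  intro W χ hχ
  obtain ⟨χ', h1, h2⟩ := m W χ ⟨hχ.1, hχ.2.1, fun a ha b hb => hχ.2.2 a ha b (by rw [hz]; exact hb)⟩
  exact ⟨χ', ⟨h1.1, h1.2.1, fun a ha b hb => h1.2.2 a ha b (by rw [← hz]; exact hb)⟩, h2⟩

/-- CONV. In structures of elementary type symbols extend. -/
theorem t_CONV : S_CONV :=
  fun S hQ h => mx_of_mxc (zero_eq hQ) (elem_main S h).2

end Pool.Agent.W382.ELG
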